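import Pool.Agent.TH138.UD.U5
import Pool.Agent.TH717.GO.FG

set_option autoImplicit false

/-!
# Congruences for matrices over a finitely generated ring
-/

namespace Pool.Agent.TH138.CG

open Pool.Agent.TH717.GO Pool.Agent.TH138.LG Pool.Agent.TH138.UD MvPolynomial

/-- a ring, a congruence on it with finitely many classes, and a torsion-free group that contains
the eigenvalues of the matrices congruent to `1` together with their inverse -/
structure Cg (L : Type) [Field L] where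
  /-- the ring -/
  R : Subring L
  /-- the ideal -/
  J : AddSubgroup L
  JR : ∀ x ∈ J, x ∈ R
  mul : ∀ a ∈ R, ∀ b ∈ J, a * b ∈ J
  /-- the group -/
  U : Subgroup Lˣ
  tf : ∀ u ∈ U, ∀ m : ℕ, 0 < m → u ^ m = 1 → u = 1
  /-- the classes -/
  C : Type
  fin : Finite C
  /-- the class -/
  red : L → C
  hred : ∀ a ∈ R, ∀ b ∈ R, red a = red b → b - a ∈ J
  eig : ∀ (N : ℕ) (T T' : Matrix (Fin N) (Fin N) L), T' * T = 1 →
    (∀ i j, T i j - (1 : Matrix (Fin N) (Fin N) L) i j ∈ J) →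
    (∀ i j, T' i j - (1 : Matrix (Fin N) (Fin N) L) i j ∈ J) →
    ∀ (μ : L) (w : Fin N → L), w ≠ 0 → T.mulVec w = μ • w → ∃ u ∈ U, (u : L) = μ

theorem exists_cg {L : Type} [Field L] [CharZero L] (S : Finset L) :
    ∃ c : Cg L, ∀ x ∈ S, x ∈ c.R := by
  classical
  obtain ⟨N, hN, hp⟩ := exists_residue_closure S
  obtain ⟨p₁, hp₁N, hp₁⟩ := Nat.exists_infinite_primes (N + 1)
  obtain ⟨p₂, hp₂N, hp₂⟩ := Nat.exists_infinite_primes (p₁ + 1)
  have hnd : ∀ p, N + 1 ≤ p → ¬ p ∣ N := fun p hp h => by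
    have := Nat.le_of_dvd (Nat.pos_of_ne_zero hN) h
    omega
  obtain ⟨F₁, i1, f1, hc1, ⟨φ₁⟩⟩ := hp p₁ hp₁ (hnd p₁ hp₁N)
  obtain ⟨F₂, i2, f2, hc2, ⟨φ₂⟩⟩ := hp p₂ hp₂ (hnd p₂ (by omega))
  have hne : ringChar F₁ ≠ ringChar F₂ := by
    rw [hc1, hc2]
    omega
  let A := Subring.closure (S : Set L)
  let R := integralClosure A L
  have hAL : Function.Injective (algebraMap A R) := by
    intro a b hab
    have h1 : (algebraMap A R a : L) = (algebraMap A R b : L) := congrArg Subtype.val hab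
    exact Subtype.ext h1
  have hlie : ∀ (F : Type) [Field F] (φ : A →+* F), ∃ P : Ideal R, P.IsPrime ∧
      P.comap (algebraMap A R) = RingHom.ker φ := by
    intro F _ φ
    have : (RingHom.ker φ).IsPrime := RingHom.ker_isPrime φ
    obtain ⟨Q, -, hQ, hQc⟩ := Ideal.exists_ideal_over_prime_of_isIntegral (S := R)
      (RingHom.ker φ) ⊥ (by
        rw [← RingHom.ker_eq_comap_bot, (RingHom.injective_iff_ker_eq_bot _).1 hAL]
        exact bot_le)
    exact ⟨Q, hQ, hQc⟩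
  obtain ⟨P₁, hP₁, hc₁⟩ := hlie F₁ φ₁
  obtain ⟨P₂, hP₂, hc₂⟩ := hlie F₂ φ₂
  have hmem : ∀ (F : Type) [Field F] (φ : A →+* F) (P : Ideal R),
      P.comap (algebraMap A R) = RingHom.ker φ → ((ringChar F : ℕ) : R) ∈ P := by
    intro F _ φ P hc
    have h1 : ((ringChar F : ℕ) : A) ∈ P.comap (algebraMap A R) := by
      rw [hc, RingHom.mem_ker, map_natCast]
      exact ringChar.Nat.cast_ringChar
    rw [Ideal.mem_comap, map_natCast] at h1
    exact h1
  have hprime : ∀ (F : Type) [Field F] [Finite F], (ringChar F).Prime := by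
    intro F _ _
    exact CharP.char_is_prime F (ringChar F)
  have htf := UI_torsionFree (P₁ ⊓ P₂) P₁ P₂ inf_le_left inf_le_right hP₁.ne_top hP₂.ne_top
    (ringChar F₁) (ringChar F₂) (hprime F₁) (hprime F₂) hne (hmem F₁ φ₁ P₁ hc₁)
    (hmem F₂ φ₂ P₂ hc₂)
  have hII : ∀ (N : ℕ) (B : Matrix (Fin N) (Fin N) A), (∀ i j, algebraMap A R
      (B i j - (1 : Matrix (Fin N) (Fin N) A) i j) ∈ P₁ ⊓ P₂) → ∀ (μ : L) (w : Fin N → L), w ≠ 0 →
      (B.map (algebraMap A L)).mulVec w = μ • w → ∃ x : R, (x : L) = μ ∧ x - 1 ∈ P₁ ⊓ P₂ := by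
    intro N B hB μ w hw0 hw
    obtain ⟨x, hx, hx0⟩ := exists_int B μ w hw0 hw
    exact ⟨x, hx, eig_prime P₁ hP₁ B (fun i j => (hB i j).1) x hx0,
      eig_prime P₂ hP₂ B (fun i j => (hB i j).2) x hx0⟩
  let J : AddSubgroup L :=
    { carrier := {x | ∃ a : A, (a : L) = x ∧ φ₁ a = 0 ∧ φ₂ a = 0}
      zero_mem' := ⟨0, rfl, map_zero _, map_zero _⟩
      add_mem' := by
        rintro _ _ ⟨a, rfl, h1, h2⟩ ⟨b, rfl, h3, h4⟩
        exact ⟨a + b, rfl, by rw [map_add, h1, h3, add_zero], by rw [map_add, h2, h4, add_zero]⟩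
      neg_mem' := by
        rintro _ ⟨a, rfl, h1, h2⟩
        exact ⟨-a, rfl, by rw [map_neg, h1, neg_zero], by rw [map_neg, h2, neg_zero]⟩ }
  refine ⟨⟨A, J, ?_, ?_, UI (P₁ ⊓ P₂), htf, F₁ × F₂, inferInstance,
    fun x => if h : x ∈ A then (φ₁ ⟨x, h⟩, φ₂ ⟨x, h⟩) else 0, ?_, ?_⟩, ?_⟩
  · rintro _ ⟨a, rfl, -⟩
    exact a.2
  · rintro a ha _ ⟨b, rfl, h1, h2⟩
    exact ⟨⟨a, ha⟩ * b, rfl, by rw [map_mul, h1, mul_zero], by rw [map_mul, h2, mul_zero]⟩
  · intro a ha b hb h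
    rw [dif_pos ha, dif_pos hb] at h
    obtain ⟨h1, h2⟩ := Prod.mk.inj h
    exact ⟨⟨b, hb⟩ - ⟨a, ha⟩, rfl, by rw [map_sub, h1, sub_self], by rw [map_sub, h2, sub_self]⟩
  · intro N T T' hT h1 h2 μ w hw0 hw
    have hA : ∀ X : Matrix (Fin N) (Fin N) L, (∀ i j, X i j - (1 : Matrix (Fin N) (Fin N) L) i j ∈ J) →
        ∃ B : Matrix (Fin N) (Fin N) A, B.map (algebraMap A L) = X ∧
          ∀ i j, algebraMap A R (B i j - (1 : Matrix (Fin N) (Fin N) A) i j) ∈ P₁ ⊓ P₂ := by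
      intro X hX
      choose b hb using hX
      refine ⟨(1 : Matrix (Fin N) (Fin N) A) + Matrix.of b, ?_, fun i j => ?_⟩
      · ext i j
        have h3 : algebraMap A L (((1 : Matrix (Fin N) (Fin N) A) + Matrix.of b) i j) =
            (1 : Matrix (Fin N) (Fin N) L) i j + (b i j : L) := by
          rw [Matrix.add_apply, map_add, Matrix.of_apply, Matrix.one_apply, Matrix.one_apply]
          split_ifs
          · rw [map_one]; rfl
          · rw [map_zero]; rfl
        rw [Matrix.map_apply, h3, (hb i j).1]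
        ring
      · rw [Matrix.add_apply, add_sub_cancel_left, Matrix.of_apply]
        refine ⟨?_, ?_⟩
        · show _ ∈ P₁.comap (algebraMap A R)
          rw [hc₁, RingHom.mem_ker]
          exact (hb i j).2.1
        · show _ ∈ P₂.comap (algebraMap A R)
          rw [hc₂, RingHom.mem_ker]
          exact (hb i j).2.2
    obtain ⟨B, hB, hBJ⟩ := hA T h1
    obtain ⟨B', hB', hBJ'⟩ := hA T' h2
    have hBB : B' * B = 1 := by
      have hinj : Function.Injective (algebraMap A L) := fun a b h => Subtype.ext h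
      apply Matrix.map_injective hinj
      show (B' * B).map (algebraMap A L) = (1 : Matrix (Fin N) (Fin N) A).map (algebraMap A L)
      rw [Matrix.map_mul, hB, hB', hT, Matrix.map_one _ (map_zero _) (map_one _)]
    exact eig_mem_UI (P₁ ⊓ P₂) _ (hII N) B B' hBB hBJ hBJ' μ w hw0 (by rw [hB]; exact hw)
  · intro x hx
    exact Subring.subset_closure hx

end Pool.Agent.TH138.CG
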