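import Pool.Agent.TH138.CG.C1

set_option autoImplicit false

/-!
# Monoids of matrices over a field of characteristic zero
-/

namespace Pool.Agent.TH138.CG

open Pool.Agent.TH717.GO Pool.Agent.TH138.LG Pool.Agent.TH138.UD MvPolynomial

variable {L : Type} [Field L] {m : ℕ}

theorem Cg.rmul (c : Cg L) {X Y : Matrix (Fin m) (Fin m) L} (hX : ∀ i j, X i j ∈ c.R)
    (hY : ∀ i j, Y i j ∈ c.R) : ∀ i j, (X * Y) i j ∈ c.R := by
  intro i j
  rw [Matrix.mul_apply]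
  exact c.R.sum_mem fun a _ => c.R.mul_mem (hX i a) (hY a j)

theorem Cg.rone (c : Cg L) : ∀ i j, (1 : Matrix (Fin m) (Fin m) L) i j ∈ c.R := by
  intro i j
  rw [Matrix.one_apply]
  split_ifs
  · exact c.R.one_mem
  · exact c.R.zero_mem

theorem Cg.rpow (c : Cg L) {X : Matrix (Fin m) (Fin m) L} (hX : ∀ i j, X i j ∈ c.R) (n : ℕ) :
    ∀ i j, (X ^ n) i j ∈ c.R := by
  induction n with
  | zero => rw [pow_zero]; exact c.rone
  | succ n ih => rw [pow_succ]; exact c.rmul ih hX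

theorem Cg.lmulJ (c : Cg L) {X Y : Matrix (Fin m) (Fin m) L} (hX : ∀ i j, X i j ∈ c.R)
    (hY : ∀ i j, Y i j ∈ c.J) : ∀ i j, (X * Y) i j ∈ c.J := by
  intro i j
  rw [Matrix.mul_apply]
  exact c.J.sum_mem fun a _ => c.mul _ (hX i a) _ (hY a j)

theorem Cg.rmulJ (c : Cg L) {X Y : Matrix (Fin m) (Fin m) L} (hX : ∀ i j, X i j ∈ c.J)
    (hY : ∀ i j, Y i j ∈ c.R) : ∀ i j, (X * Y) i j ∈ c.J := by
  intro i j
  rw [Matrix.mul_apply]
  refine c.J.sum_mem fun a _ => ?_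
  rw [mul_comm]
  exact c.mul _ (hY a j) _ (hX i a)

/-- `X` and `Y` are congruent -/
def Cg.Eqv (c : Cg L) (X Y : Matrix (Fin m) (Fin m) L) : Prop := ∀ i j, (X - Y) i j ∈ c.J

theorem Cg.Eqv.refl (c : Cg L) (X : Matrix (Fin m) (Fin m) L) : c.Eqv X X := fun i j => by
  rw [sub_self]; exact c.J.zero_mem

theorem Cg.Eqv.symm {c : Cg L} {X Y : Matrix (Fin m) (Fin m) L} (h : c.Eqv X Y) : c.Eqv Y X :=
  fun i j => by
    rw [← neg_sub, Matrix.neg_apply]
    exact c.J.neg_mem (h i j)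

theorem Cg.Eqv.trans {c : Cg L} {X Y Z : Matrix (Fin m) (Fin m) L} (h : c.Eqv X Y)
    (h' : c.Eqv Y Z) : c.Eqv X Z := fun i j => by
  rw [← sub_add_sub_cancel X Y Z, Matrix.add_apply]
  exact c.J.add_mem (h i j) (h' i j)

theorem Cg.Eqv.mul_left {c : Cg L} {X Y : Matrix (Fin m) (Fin m) L} (h : c.Eqv X Y)
    {Z : Matrix (Fin m) (Fin m) L} (hZ : ∀ i j, Z i j ∈ c.R) : c.Eqv (Z * X) (Z * Y) := by
  intro i j
  rw [← mul_sub]
  exact c.lmulJ hZ h i j

theorem Cg.Eqv.mul_right {c : Cg L} {X Y : Matrix (Fin m) (Fin m) L} (h : c.Eqv X Y)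
    {Z : Matrix (Fin m) (Fin m) L} (hZ : ∀ i j, Z i j ∈ c.R) : c.Eqv (X * Z) (Y * Z) := by
  intro i j
  rw [← sub_mul]
  exact c.rmulJ h hZ i j

/-- matrices over the ring, with their inverse -/
def Cg.Inv (c : Cg L) (s : Matrix (Fin m) (Fin m) L) : Prop :=
  (∀ i j, s i j ∈ c.R) ∧ ∃ s' : Matrix (Fin m) (Fin m) L, s' * s = 1 ∧ ∀ i j, s' i j ∈ c.R

/-- matrices congruent to `1`, with their inverse -/
def Cg.Good (c : Cg L) (s : Matrix (Fin m) (Fin m) L) : Prop :=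
  ∃ s' : Matrix (Fin m) (Fin m) L, s' * s = 1 ∧ c.Eqv s 1 ∧ c.Eqv s' 1

theorem Cg.Inv.good {c : Cg L} {s : Matrix (Fin m) (Fin m) L} (h : c.Inv s) (e : c.Eqv s 1) :
    c.Good s := by
  obtain ⟨-, s', h1, h2⟩ := h
  refine ⟨s', h1, e, ?_⟩
  have h3 := e.mul_left h2
  rw [h1, mul_one] at h3
  exact h3.symm

theorem Kr_sub_one (s : Matrix (Fin m) (Fin m) L) (i j : Fin (m * m)) :
    Kr 1 s i j - (1 : Matrix (Fin (m * m)) (Fin (m * m)) L) i j = Kr 1 (s - 1) i j := by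
  rw [← Kr_one]
  simp only [Kr, Matrix.sub_apply]
  ring

theorem Cg.powers_two [CharZero L] [IsAlgClosed L] (c : Cg L) {s : Matrix (Fin m) (Fin m) L}
    (hs : c.Good s) (N : Matrix (Fin m) (Fin m) L) :
    Uni (mv (RingHom.id L) '' {x | ∃ i : ℕ, x = N * s ^ i}) ∧
      ∀ F : MvPolynomial (Fin m × Fin m) L,
        (∀ i : ℕ, 0 < i → eval (mv (RingHom.id L) (N * s ^ i)) F = 0) →
          eval (mv (RingHom.id L) N) F = 0 := by
  obtain ⟨s', h1, h2, h3⟩ := hs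
  have hKJ : ∀ t : Matrix (Fin m) (Fin m) L, c.Eqv t 1 → ∀ i j,
      Kr 1 t i j - (1 : Matrix (Fin (m * m)) (Fin (m * m)) L) i j ∈ c.J := by
    intro t ht i j
    rw [Kr_sub_one]
    exact c.mul _ (c.rone _ _) _ (ht _ _)
  have hKK : Kr (1 : Matrix (Fin m) (Fin m) L) s' * Kr 1 s = 1 := by
    have h2 : s * s' = 1 := by
      rw [mul_eq_one_comm]
      exact h1
    rw [Kr_mul, h2, one_mul, Kr_one]
  let ℓ : (Fin (m * m) → L) →ₗ[L] (Fin m × Fin m → L) :=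
    { toFun := fun y q => y (finProdFinEquiv q)
      map_add' := fun _ _ => rfl
      map_smul' := fun _ _ => rfl }
  have hseq : ∀ i : ℕ, ℓ (((Matrix.toLinAlgEquiv' (Kr (1 : Matrix (Fin m) (Fin m) L)
      s)) ^ i) (vec N)) = mv (RingHom.id L) (N * s ^ i) := by
    intro i
    rw [← map_pow, Matrix.toLinAlgEquiv'_apply, Kr_pow, one_pow, one_mul]
    funext q
    show vec (N * s ^ i) (finProdFinEquiv q) = (N * s ^ i) q.1 q.2
    simp [vec]
  obtain ⟨h4, h5⟩ := one_param (Matrix.toLinAlgEquiv' (Kr (1 : Matrix (Fin m) (Fin m) L) s))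
    c.U c.tf (by
      intro μ hμ
      obtain ⟨w, hw⟩ := hμ.exists_hasEigenvector
      refine c.eig _ (Kr 1 s) (Kr 1 s') hKK (hKJ s h2) (hKJ s' h3) μ w hw.2 ?_
      have := hw.apply_eq_smul
      rwa [Matrix.toLinAlgEquiv'_apply] at this) ℓ (vec N)
  constructor
  · have h6 : mv (RingHom.id L) '' {x | ∃ i : ℕ, x = N * s ^ i} = Set.range fun i : ℕ =>
        ℓ (((Matrix.toLinAlgEquiv' (Kr (1 : Matrix (Fin m) (Fin m) L) s)) ^ i) (vec N)) := by
      ext z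
      constructor
      · rintro ⟨_, ⟨i, rfl⟩, rfl⟩
        exact ⟨i, hseq i⟩
      · rintro ⟨i, rfl⟩
        exact ⟨N * s ^ i, ⟨i, rfl⟩, (hseq i).symm⟩
    rw [h6]
    exact h4
  · intro F hF
    have h7 := h5 F (fun i hi => by rw [hseq]; exact hF i hi) 0
    rw [hseq] at h7
    simpa using h7

theorem Cg.fam_uni [CharZero L] [IsAlgClosed L] (c : Cg L)
    (l : List (Matrix (Fin m) (Fin m) L)) (hl : ∀ s ∈ l, c.Good s) :
    Uni (mv (RingHom.id L) '' fam l) := by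
  induction l with
  | nil =>
    have : mv (RingHom.id L) '' fam ([] : List (Matrix (Fin m) (Fin m) L)) =
      {mv (RingHom.id L) 1} := Set.image_singleton
    rw [this]
    exact Uni.singleton _
  | cons s l ih =>
    have h1 := ih (fun s hs => hl s (List.mem_cons_of_mem _ hs))
    have h2 := (c.powers_two (hl s List.mem_cons_self) 1).1
    have h3 : fam (s :: l) = {x | ∃ y ∈ fam l, ∃ t ∈ {x | ∃ i : ℕ, x = 1 * s ^ i}, x = y * t} := by
      ext x
      constructor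
      · rintro ⟨y, hy, i, rfl⟩
        exact ⟨y, hy, _, ⟨i, rfl⟩, by rw [one_mul]⟩
      · rintro ⟨y, hy, _, ⟨i, rfl⟩, rfl⟩
        exact ⟨y, hy, i, by rw [one_mul]⟩
    rw [h3, mv_image_mul]
    exact h1.im₂ _ h2

theorem Cg.monoid_uni [CharZero L] [IsAlgClosed L] (c : Cg L)
    (S : Submonoid (Matrix (Fin m) (Fin m) L)) (hS : ∀ s ∈ S, c.Good s) :
    Uni (mv (RingHom.id L) '' (S : Set (Matrix (Fin m) (Fin m) L))) := by
  classical
  let φ := RingHom.id L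
  let D : Set (List (Matrix (Fin m) (Fin m) L)) := {l | ∀ s ∈ l, s ∈ S}
  have hDne : D.Nonempty := ⟨[], by simp [D]⟩
  have hprime : ∀ l ∈ D, (VI (mv φ '' fam l)).IsPrime := fun l hl =>
    VI_prime (c.fam_uni l fun s hs => hS s (hl s hs)) ⟨_, 1, one_mem_fam l, rfl⟩
  obtain ⟨l0, hl0, hmin⟩ : ∃ l0 ∈ D, ∀ l ∈ D, ¬ (VI (mv φ '' fam l)).height <
      (VI (mv φ '' fam l0)).height := by
    obtain ⟨y, ⟨l0, hl0, rfl⟩, hy⟩ := WellFounded.has_min (wellFounded_lt (α := ℕ∞))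
      ((fun l => (VI (mv φ '' fam l)).height) '' D) (hDne.image _)
    exact ⟨l0, hl0, fun l hl => hy _ ⟨l, hl, rfl⟩⟩
  refine Uni.congr ?_ (c.fam_uni l0 fun s hs => hS s (hl0 s hs))
  intro F
  constructor
  · rintro h _ ⟨y, hy, rfl⟩
    exact h _ ⟨y, fam_sub S l0 hl0 hy, rfl⟩
  · rintro h _ ⟨s, hs, rfl⟩
    have hD : (s :: l0) ∈ D := by
      intro t ht
      rcases List.mem_cons.1 ht with rfl | ht
      · exact hs
      · exact hl0 t ht
    have hle : VI (mv φ '' fam (s :: l0)) ≤ VI (mv φ '' fam l0) := by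
      rintro G hG _ ⟨y, hy, rfl⟩
      exact hG _ ⟨y, ⟨y, hy, 0, by simp⟩, rfl⟩
    have h1 := hprime _ hD
    have h2 := hprime _ hl0
    have heq : VI (mv φ '' fam (s :: l0)) = VI (mv φ '' fam l0) := by
      by_contra hne
      exact hmin _ hD (Ideal.height_strict_mono_of_isPrime_of_isPrime (lt_of_le_of_ne hle hne))
    have h3 : F ∈ VI (mv φ '' fam (s :: l0)) := by
      rw [heq]
      exact h
    exact h3 _ ⟨s, ⟨1, one_mem_fam l0, 1, by simp⟩, rfl⟩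

/-- the matrices of `S` congruent to `1` -/
def Cg.S1 (c : Cg L) (S : Submonoid (Matrix (Fin m) (Fin m) L)) (hS : ∀ s ∈ S, c.Inv s) :
    Submonoid (Matrix (Fin m) (Fin m) L) where
  carrier := {s | s ∈ S ∧ c.Eqv s 1}
  one_mem' := ⟨S.one_mem, Cg.Eqv.refl c 1⟩
  mul_mem' := by
    rintro a b ⟨ha, ha1⟩ ⟨hb, hb1⟩
    refine ⟨S.mul_mem ha hb, ?_⟩
    have h1 := hb1.mul_left (hS a ha).1
    rw [mul_one] at h1
    exact h1.trans ha1

theorem Cg.exists_pow (c : Cg L) (S : Submonoid (Matrix (Fin m) (Fin m) L))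
    (hS : ∀ s ∈ S, c.Inv s) (t : Matrix (Fin m) (Fin m) L) (ht : t ∈ S) :
    ∃ N : ℕ, 0 < N ∧ c.Eqv (t ^ N) 1 := by
  obtain ⟨htp, t', ht1, ht2⟩ := hS t ht
  have hfin := c.fin
  obtain ⟨a, b, hab, hc⟩ := Finite.exists_ne_map_eq_of_infinite
    (fun (e : ℕ) (i j : Fin m) => c.red ((t ^ e) i j))
  have key : ∀ a b : ℕ, a < b → (fun (i j : Fin m) => c.red ((t ^ a) i j)) =
      (fun (i j : Fin m) => c.red ((t ^ b) i j)) → ∃ N : ℕ, 0 < N ∧ c.Eqv (t ^ N) 1 := by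
    intro a b hab hc
    have h0 : c.Eqv (t ^ b) (t ^ a) := by
      intro i j
      rw [Matrix.sub_apply]
      exact c.hred _ (c.rpow htp a i j) _ (c.rpow htp b i j) (congrFun (congrFun hc i) j)
    have h1 : t' ^ a * t ^ a = 1 := by
      have hcomm : Commute t' t := by
        show t' * t = t * t'
        rw [ht1, mul_eq_one_comm.1 ht1]
      rw [← hcomm.mul_pow, ht1, one_pow]
    have h2 := h0.mul_left (c.rpow ht2 a)
    rw [h1] at h2
    refine ⟨b - a, by omega, ?_⟩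
    have h3 : t' ^ a * t ^ b = t ^ (b - a) := by
      calc t' ^ a * t ^ b = t' ^ a * (t ^ a * t ^ (b - a)) := by
            rw [← pow_add]; congr 2; omega
        _ = t ^ (b - a) := by rw [← mul_assoc, h1, one_mul]
    rwa [h3] at h2
  rcases lt_or_gt_of_ne hab with h | h
  · exact key a b h hc
  · exact key b a h hc.symm

theorem Cg.cong_uni [CharZero L] [IsAlgClosed L] (c : Cg L)
    (S : Submonoid (Matrix (Fin m) (Fin m) L)) (hS : ∀ s ∈ S, c.Inv s)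
    (t : Matrix (Fin m) (Fin m) L) (ht : t ∈ S) :
    Uni (mv (RingHom.id L) '' {s | s ∈ S ∧ c.Eqv s t}) := by
  obtain ⟨N, hN, hNE⟩ := c.exists_pow S hS t ht
  have hS1 : ∀ s ∈ c.S1 S hS, c.Good s := by
    rintro s ⟨hs, e⟩
    exact (hS s hs).good e
  have hu := (c.monoid_uni (c.S1 S hS) hS1).im₂ (mulΦ L m) (Uni.singleton (mv (RingHom.id L) t))
  have himg : im₂ (mulΦ L m) (mv (RingHom.id L) '' (c.S1 S hS : Set (Matrix (Fin m) (Fin m) L)))
      {mv (RingHom.id L) t} =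
      mv (RingHom.id L) '' {x | ∃ s ∈ (c.S1 S hS : Set (Matrix (Fin m) (Fin m) L)),
        ∃ y ∈ ({t} : Set _), x = s * y} := by
    rw [mv_image_mul, Set.image_singleton]
  rw [himg] at hu
  refine Uni.congr ?_ hu
  intro F
  constructor
  · rintro h _ ⟨_, ⟨s, ⟨hs, e⟩, _, rfl, rfl⟩, rfl⟩
    refine h _ ⟨_, ⟨S.mul_mem hs ht, ?_⟩, rfl⟩
    have h1 := e.mul_right (hS _ ht).1
    rwa [one_mul] at h1
  · rintro h _ ⟨s, ⟨hs, e⟩, rfl⟩
    have hg : c.Good (t ^ N) := (hS _ (S.pow_mem ht N)).good hNE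
    refine (c.powers_two hg s).2 F fun i hi => ?_
    have hmem : t ^ N ∈ c.S1 S hS := ⟨S.pow_mem ht N, hNE⟩
    obtain ⟨-, he'⟩ := (c.S1 S hS).pow_mem hmem i
    have hNi : 0 < N * i := Nat.mul_pos hN hi
    have h1 : s * (t ^ N) ^ i = (s * t ^ (N * i - 1)) * t := by
      rw [mul_assoc, ← pow_succ, ← pow_mul]
      congr 3
      omega
    rw [h1]
    refine h _ ⟨_, ⟨s * t ^ (N * i - 1), ⟨S.mul_mem hs (S.pow_mem ht _), ?_⟩, t, rfl, rfl⟩, rfl⟩
    have h2 := e.mul_right (c.rpow (hS _ ht).1 (N * i - 1))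
    rw [← pow_succ', Nat.sub_add_cancel hNi, pow_mul] at h2
    exact h2.trans he'

/-- **A monoid of invertible matrices over the ring.** -/
theorem Cg.monoid_FU [CharZero L] [IsAlgClosed L] (c : Cg L)
    (S : Submonoid (Matrix (Fin m) (Fin m) L)) (hS : ∀ s ∈ S, c.Inv s) :
    FU (mv (RingHom.id L) '' (S : Set (Matrix (Fin m) (Fin m) L))) := by
  classical
  have hfin := c.fin
  let rd : Matrix (Fin m) (Fin m) L → (Fin m → Fin m → c.C) := fun t i j => c.red (t i j)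
  let Y : (Fin m → Fin m → c.C) → Set (Matrix (Fin m) (Fin m) L) := fun d =>
    if h : ∃ t ∈ S, rd t = d then {s | s ∈ S ∧ c.Eqv s h.choose} else ∅
  have h1 : (S : Set (Matrix (Fin m) (Fin m) L)) = ⋃ d, Y d := by
    ext s
    rw [Set.mem_iUnion]
    constructor
    · intro hs
      have h : ∃ t ∈ S, rd t = rd s := ⟨s, hs, rfl⟩
      refine ⟨rd s, ?_⟩
      simp only [Y, dif_pos h]
      refine ⟨hs, fun i j => ?_⟩
      rw [Matrix.sub_apply]
      exact c.hred _ ((hS _ h.choose_spec.1).1 i j) _ ((hS s hs).1 i j)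
        (congrFun (congrFun h.choose_spec.2 i) j)
    · rintro ⟨d, hd⟩
      by_cases h : ∃ t ∈ S, rd t = d
      · simp only [Y, dif_pos h] at hd
        exact hd.1
      · simp only [Y, dif_neg h] at hd
        exact absurd hd (Set.notMem_empty s)
  rw [h1, Set.image_iUnion]
  refine FU.iUnion fun d => ?_
  by_cases h : ∃ t ∈ S, rd t = d
  · simp only [Y, dif_pos h]
    exact FU.of_uni (c.cong_uni S hS _ h.choose_spec.1)
  · simp only [Y, dif_neg h, Set.image_empty]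
    exact FU.empty

end Pool.Agent.TH138.CG
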