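import Pool.Agent.TH138.CG.C2

set_option autoImplicit false

/-!
# The closure of a context-free family over a field of characteristic zero
-/

namespace Pool.Agent.TH138.CG

open Pool.Agent.TH717.GO Pool.Agent.TH138.LG Pool.Agent.TH138.UD MvPolynomial

variable {L : Type} [Field L] {m : ℕ} {A : Type}

/-- the matrices with entries in `R` -/
def Cg.GLR (c : Cg L) (m : ℕ) : Subgroup (Matrix.GeneralLinearGroup (Fin m) L) where
  carrier := {g | (∀ i j, (g : Matrix (Fin m) (Fin m) L) i j ∈ c.R) ∧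
    ∀ i j, ((g⁻¹ : Matrix.GeneralLinearGroup (Fin m) L) : Matrix (Fin m) (Fin m) L) i j ∈ c.R}
  one_mem' := by
    refine ⟨?_, ?_⟩
    · rw [Units.val_one]
      exact c.rone
    · rw [inv_one, Units.val_one]
      exact c.rone
  mul_mem' := by
    rintro a b ⟨ha, ha'⟩ ⟨hb, hb'⟩
    refine ⟨?_, ?_⟩
    · rw [Units.val_mul]
      exact c.rmul ha hb
    · rw [mul_inv_rev, Units.val_mul]
      exact c.rmul hb' ha'
  inv_mem' := by
    rintro a ⟨ha, ha'⟩
    exact ⟨ha', by rwa [inv_inv]⟩

theorem Cg.ctxS_inv (c : Cg L) {g : ContextFreeGrammar A} (𝒩 : Set g.NT) (X : g.NT)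
    (ρ : A → Matrix.GeneralLinearGroup (Fin m) L) (hρ : ∀ a, ρ a ∈ c.GLR m) :
    ∀ s ∈ ctxS 𝒩 X ρ, c.Inv s := by
  have hw : ∀ w : List A, (w.map ρ).prod ∈ c.GLR m := by
    intro w
    refine Subgroup.list_prod_mem _ ?_
    intro x hx
    obtain ⟨a, _, rfl⟩ := List.mem_map.1 hx
    exact hρ a
  rintro _ ⟨u, z, -, rfl⟩
  refine ⟨fun i j => c.R.mul_mem ((hw u).1 _ _) ((hw z).1 _ _), ?_⟩
  refine ⟨Kr (((u.map ρ).prod⁻¹ : Matrix.GeneralLinearGroup (Fin m) L))
    (((z.map ρ).prod⁻¹ : Matrix.GeneralLinearGroup (Fin m) L)), ?_,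
    fun i j => c.R.mul_mem ((hw u).2 _ _) ((hw z).2 _ _)⟩
  rw [Kr_mul]
  unfold Pw
  rw [Units.inv_mul, Units.mul_inv, Kr_one]

theorem Cg.vals_FU [CharZero L] [IsAlgClosed L] (c : Cg L)
    (ρ : A → Matrix.GeneralLinearGroup (Fin m) L) (hρ : ∀ a, ρ a ∈ c.GLR m)
    (g : ContextFreeGrammar A) :
    ∀ (N : ℕ) (𝒩 : Finset g.NT), 𝒩.card = N → ∀ α : List (Symbol A g.NT),
      FU (vals (RingHom.id L) ρ {w | DLr g (𝒩 : Set g.NT) α w}) := by
  classical
  intro N
  induction N using Nat.strong_induction_on with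
  | _ N ih =>
    intro 𝒩 h𝒩
    have hsing : ∀ X : g.NT,
        FU (vals (RingHom.id L) ρ {w | DLr g (𝒩 : Set g.NT) [.nonterminal X] w}) := by
      intro X
      by_cases hX : X ∈ 𝒩
      · rw [vals_single (RingHom.id L) (𝒩 : Set g.NT) X (Finset.mem_coe.2 hX) ρ]
        haveI : Finite {r : ContextFreeRule A g.NT // r ∈ g.rules ∧ r.input = X} :=
          Finite.of_injective (fun r => (⟨r.1, r.2.1⟩ : {r // r ∈ g.rules}))
            (fun r r' h => Subtype.ext (Subtype.mk.inj h))
        refine FU.iUnion fun r => ?_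
        refine FU.im₂ _ (c.monoid_FU _ (c.ctxS_inv _ X ρ hρ)) ?_
        have h2 := ih (𝒩.erase X).card (by rw [← h𝒩]; exact Finset.card_erase_lt_of_mem hX)
          (𝒩.erase X) rfl r.1.output
        rw [Finset.coe_erase] at h2
        exact h2
      · have : vals (RingHom.id L) ρ {w | DLr g (𝒩 : Set g.NT) [.nonterminal X] w} = ∅ := by
          rw [Set.eq_empty_iff_forall_notMem]
          rintro z ⟨w, hw, -⟩
          exact hX (Finset.mem_coe.1 (DLr.input_mem hw))
        rw [this]
        exact FU.empty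
    intro α
    induction α with
    | nil =>
      have : vals (RingHom.id L) ρ {w | DLr g (𝒩 : Set g.NT) [] w} =
          {mv (RingHom.id L) (Pw ρ [])} := by
        ext z
        constructor
        · rintro ⟨w, hw, rfl⟩
          rw [DLr.nil_iff.1 hw]
          rfl
        · rintro rfl
          exact ⟨[], DLr.nil, rfl⟩
      rw [this]
      exact FU.of_uni (Uni.singleton _)
    | cons s l ihl =>
      rcases s with a | X
      · have h1 : {w | DLr g (𝒩 : Set g.NT) (.terminal a :: l) w} =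
            {w | ∃ w₁ w₂, w = w₁ ++ w₂ ∧ w₁ ∈ ({[a]} : Set (List A)) ∧
              w₂ ∈ {w | DLr g (𝒩 : Set g.NT) l w}} := by
          ext w
          rw [Set.mem_setOf_eq, DLr.term_iff]
          constructor
          · rintro ⟨w', rfl, h⟩
            exact ⟨_, _, rfl, rfl, h⟩
          · rintro ⟨_, w', rfl, rfl, h⟩
            exact ⟨w', rfl, h⟩
        rw [h1, vals_mul]
        refine FU.im₂ _ ?_ ihl
        have : vals (RingHom.id L) ρ ({[a]} : Set (List A)) = {mv (RingHom.id L) (Pw ρ [a])} := by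
          ext z
          constructor
          · rintro ⟨w, rfl, rfl⟩
            rfl
          · rintro rfl
            exact ⟨[a], rfl, rfl⟩
        rw [this]
        exact FU.of_uni (Uni.singleton _)
      · have h1 : {w | DLr g (𝒩 : Set g.NT) (.nonterminal X :: l) w} =
            {w | ∃ w₁ w₂, w = w₁ ++ w₂ ∧ w₁ ∈ {w | DLr g (𝒩 : Set g.NT) [.nonterminal X] w} ∧
              w₂ ∈ {w | DLr g (𝒩 : Set g.NT) l w}} := by
          ext w
          rw [Set.mem_setOf_eq, DLr.nt_iff]
          rfl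
        rw [h1, vals_mul]
        exact FU.im₂ _ (hsing X) ihl

theorem exists_cg_letters [CharZero L] [Finite A] (ρ : A → Matrix.GeneralLinearGroup (Fin m) L) :
    ∃ c : Cg L, ∀ a, ρ a ∈ c.GLR m := by
  classical
  have := Fintype.ofFinite A
  let S : Finset L := (Finset.univ : Finset (A × Fin m × Fin m)).image (fun q =>
      (ρ q.1 : Matrix (Fin m) (Fin m) L) q.2.1 q.2.2) ∪
    (Finset.univ : Finset (A × Fin m × Fin m)).image (fun q =>
      (((ρ q.1)⁻¹ : Matrix.GeneralLinearGroup (Fin m) L) : Matrix (Fin m) (Fin m) L) q.2.1 q.2.2)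
  obtain ⟨c, hc⟩ := exists_cg S
  refine ⟨c, fun a => ⟨fun i j => hc _ ?_, fun i j => hc _ ?_⟩⟩
  · exact Finset.mem_union_left _ (Finset.mem_image.2 ⟨(a, i, j), Finset.mem_univ _, rfl⟩)
  · exact Finset.mem_union_right _ (Finset.mem_image.2 ⟨(a, i, j), Finset.mem_univ _, rfl⟩)

/-- **The closure of a context-free family of matrix products.** -/
theorem language_FU [CharZero L] [IsAlgClosed L] [Finite A]
    (ρ : A → Matrix.GeneralLinearGroup (Fin m) L) (g : ContextFreeGrammar A) :
    FU (vals (RingHom.id L) ρ g.language) := by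
  classical
  obtain ⟨c, hρ⟩ := exists_cg_letters ρ
  have h1 := c.vals_FU ρ hρ g _ (inputs g) rfl [.nonterminal g.initial]
  have h2 : {w | DLr g (inputs g : Set g.NT) [.nonterminal g.initial] w} = g.language := by
    ext w
    rw [Set.mem_setOf_eq]
    constructor
    · intro h
      exact mem_language.2 h.toDL
    · intro h
      exact DLr.of_DL (mem_language.1 h)
  rw [h2] at h1
  exact h1

/-- **The closure of a context-free family of vectors.** -/
theorem vectors_FU {ι : Type} [CharZero L] [IsAlgClosed L] [Finite A]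
    (M : Matrix ι (Fin m) L) (ρ : A → Matrix.GeneralLinearGroup (Fin m) L) (v : Fin m → L)
    (g : ContextFreeGrammar A) :
    FU {z : ι → L | ∃ w ∈ g.language, z = affVec M ρ v w} := by
  have h := (language_FU ρ g).map (κ := ι)
    (fun i => ∑ a, ∑ b, C (M i a) * (X (a, b) * C (v b)))
  have h2 : {z : ι → L | ∃ x ∈ vals (RingHom.id L) ρ g.language, z = fun i => eval x
      (∑ a, ∑ b, C (M i a) * (X (a, b) * C (v b)))} =
      {z : ι → L | ∃ w ∈ g.language, z = affVec M ρ v w} := by
    have h3 : ∀ w : List A, (fun i => eval (mv (RingHom.id L) (Pw ρ w))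
        (∑ a, ∑ b, C (M i a) * (X (a, b) * C (v b)))) = affVec M ρ v w := by
      intro w
      funext i
      unfold affVec
      rw [Matrix.mulVec, dotProduct, map_sum]
      refine Finset.sum_congr rfl fun a _ => ?_
      rw [map_sum, Matrix.mulVec, dotProduct, Finset.mul_sum]
      refine Finset.sum_congr rfl fun b _ => ?_
      rw [map_mul, map_mul, eval_C, eval_X, eval_C]
      rfl
    ext z
    constructor
    · rintro ⟨_, ⟨w, hw, rfl⟩, rfl⟩
      exact ⟨w, hw, h3 w⟩
    · rintro ⟨w, hw, rfl⟩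
      exact ⟨_, ⟨w, hw, rfl⟩, (h3 w).symm⟩
  rw [h2] at h
  exact h

end Pool.Agent.TH138.CG
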