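import Pool.Agent.TH138.CG.C3
import Pool.Agent.TH138.UD.U9
import Pool.Agent.TH717.GO.Equiv

set_option autoImplicit false

/-!
# Projective varieties without rational curves and context-free families
-/

namespace Pool.Agent.TH138.CG

open Pool.Agent.TH717.GO Pool.Agent.TH138.LG Pool.Agent.TH138.UD MvPolynomial
open scoped LinearAlgebra.Projectivization

variable {L : Type} [Field L] {n : ℕ}

theorem clear_all {κ σ : Type} [Fintype σ] [Fintype κ] (P : κ → MvPolynomial (σ ⊕ σ) L) :
    ∃ (N : ℕ) (G : κ → MvPolynomial σ L), ∀ (t : σ → Lˣ) (i : κ),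
      eval (fun j => ((t j : Lˣ) : L)) (G i) = (∏ j, ((t j : Lˣ) : L)) ^ N * tor P t i := by
  classical
  choose E G hG using fun i => clear (P i)
  let T : MvPolynomial σ L := ∏ a, MvPolynomial.X a
  refine ⟨∑ a, E a, fun i => G i * T ^ (∑ a, E a - E i), fun t i => ?_⟩
  have h1 : E i ≤ ∑ a, E a := Finset.single_le_sum (fun _ _ => Nat.zero_le _) (Finset.mem_univ i)
  have h2 : eval (fun a => ((t a : Lˣ) : L)) T = ∏ a, ((t a : Lˣ) : L) := by
    simp only [T]
    rw [map_prod]
    simp only [eval_X]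
  rw [map_mul, hG i t, map_pow, h2]
  have h3 : (∏ a, ((t a : Lˣ) : L)) ^ (∑ a, E a) = (∏ a, ((t a : Lˣ) : L)) ^ (E i) *
      (∏ a, ((t a : Lˣ) : L)) ^ (∑ a, E a - E i) := by
    rw [← pow_add]
    congr 1
    omega
  rw [h3]
  unfold tor
  ring

/-- the image of a torus on a variety without rational curves is a point -/
theorem torus_line [CharZero L] (FF : Set (MvPolynomial (Fin (n + 1)) L))
    (hhom : ∀ F ∈ FF, ∃ e, F.IsHomogeneous e) (h : NoRat FF) {σ : Type} [Fintype σ]
    (P : Fin (n + 1) → MvPolynomial (σ ⊕ σ) L)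
    (hP : ∀ (t : σ → Lˣ), ∀ F ∈ FF, eval (tor P t) F = 0) (t u : σ → Lˣ) (i i' : Fin (n + 1)) :
    tor P t i * tor P u i' = tor P t i' * tor P u i := by
  classical
  obtain ⟨N, G, hG⟩ := clear_all P
  let z : σ → Polynomial L := fun a =>
    Polynomial.C ((t a : Lˣ) : L) + Polynomial.X * Polynomial.C (((u a : Lˣ) : L) - (t a : Lˣ))
  let q : Fin (n + 1) → Polynomial L := fun i => aeval z (G i)
  have hz : ∀ (a : σ) (x : L), (z a).eval x = (t a : L) + x * ((u a : L) - (t a : L)) := by
    intro a x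
    simp [z]
  have hq : ∀ (i : Fin (n + 1)) (x : L), (q i).eval x = eval (fun a => (z a).eval x) (G i) := by
    intro i x
    exact comp_aeval_apply (R := L) z (Polynomial.aeval x : Polynomial L →ₐ[L] L) (G i)
  have hqF : ∀ F ∈ FF, aeval q F = 0 := by
    intro F hF
    obtain ⟨e, he⟩ := hhom F hF
    have hqx : ∀ x : L, (aeval q F : Polynomial L).eval x = eval (fun i => (q i).eval x) F := by
      intro x
      exact comp_aeval_apply (R := L) q (Polynomial.aeval x : Polynomial L →ₐ[L] L) F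
    have hzne : (∏ a, z a) ≠ 0 := by
      refine Finset.prod_ne_zero_iff.2 fun a _ h0 => ?_
      have h1 := hz a 0
      rw [h0, Polynomial.eval_zero, zero_mul, add_zero] at h1
      exact (t a).ne_zero h1.symm
    have h2 : aeval q F * ∏ a, z a = 0 := by
      refine Polynomial.funext fun x => ?_
      rw [Polynomial.eval_mul, Polynomial.eval_zero, Polynomial.eval_prod]
      by_cases hx : ∀ a, (z a).eval x ≠ 0
      · let s : σ → Lˣ := fun a => Units.mk0 ((z a).eval x) (hx a)
        have h3 : (fun i => (q i).eval x) =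
            fun i => (∏ j, ((s j : Lˣ) : L)) ^ N * tor P s i := by
          funext i
          rw [hq]
          exact hG s i
        have h4 : eval (fun i => (∏ j, ((s j : Lˣ) : L)) ^ N * tor P s i) F =
            ((∏ j, ((s j : Lˣ) : L)) ^ N) ^ e * eval (tor P s) F :=
          aeval_mul_hom (L := L) F e he ((∏ j, ((s j : Lˣ) : L)) ^ N) (tor P s)
        rw [hqx, h3, h4, hP s F hF, mul_zero, zero_mul]
      · push Not at hx
        obtain ⟨a, ha⟩ := hx
        rw [Finset.prod_eq_zero (Finset.mem_univ a) ha, mul_zero]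
    exact (mul_eq_zero.1 h2).resolve_right hzne
  have h5 := h q hqF i i' 0 1
  have h0 : ∀ i, (q i).eval 0 = (∏ j, ((t j : Lˣ) : L)) ^ N * tor P t i := by
    intro i
    rw [hq, ← hG t i]
    congr 2
    funext a
    rw [hz, zero_mul, add_zero]
  have h1 : ∀ i, (q i).eval 1 = (∏ j, ((u j : Lˣ) : L)) ^ N * tor P u i := by
    intro i
    rw [hq, ← hG u i]
    congr 2
    funext a
    rw [hz, one_mul, add_sub_cancel]
  rw [h0, h1, h0, h1] at h5
  have ht : (∏ j, ((t j : Lˣ) : L)) ^ N ≠ 0 :=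
    pow_ne_zero _ (Finset.prod_ne_zero_iff.2 fun j _ => (t j).ne_zero)
  have hu : (∏ j, ((u j : Lˣ) : L)) ^ N ≠ 0 :=
    pow_ne_zero _ (Finset.prod_ne_zero_iff.2 fun j _ => (u j).ne_zero)
  refine mul_left_cancel₀ (mul_ne_zero ht hu) ?_
  linear_combination h5

/-- the points of projective space represented by the vectors of a set -/
def projPts (S : Set (Fin (n + 1) → L)) : Set (ℙ L (Fin (n + 1) → L)) :=
  {P | ∃ x ∈ S, ∃ h : x ≠ 0, P = Projectivization.mk L x h}

/-- vectors in a finite union of lines -/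
theorem lines_finite {N : ℕ} (Z : Fin N → Set (Fin (n + 1) → L))
    (hZ : ∀ j, ∀ x ∈ Z j, ∀ y ∈ Z j, ∀ i i', x i * y i' = x i' * y i)
    (S : Set (Fin (n + 1) → L))
    (hS : ∀ F : MvPolynomial (Fin (n + 1)) L, (∀ j, ∀ y ∈ Z j, eval y F = 0) →
      ∀ x ∈ S, eval x F = 0) : (projPts S).Finite := by
  classical
  let T : Fin N → Set (ℙ L (Fin (n + 1) → L)) := fun j => projPts (Z j)
  have hT : ∀ j, (T j).Subsingleton := by
    rintro j _ ⟨x, hx, hx0, rfl⟩ _ ⟨y, hy, hy0, rfl⟩
    exact mk_eq_of_cross hx0 hy0 fun i i' => hZ j x hx y hy i i'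
  refine (Set.finite_iUnion fun j => (hT j).finite).subset (s := ⋃ j, T j) ?_
  rintro _ ⟨x, hx, hx0, rfl⟩
  rw [Set.mem_iUnion]
  by_contra hcon
  push Not at hcon
  have key : ∀ j, ∃ F : MvPolynomial (Fin (n + 1)) L, (∀ y ∈ Z j, eval y F = 0) ∧
      eval x F ≠ 0 := by
    intro j
    by_cases hz : ∃ z ∈ Z j, z ≠ 0
    · obtain ⟨z, hzZ, hz0⟩ := hz
      obtain ⟨i, i', hii⟩ : ∃ i i', x i * z i' ≠ x i' * z i := by
        by_contra hall
        push Not at hall
        exact hcon j ⟨z, hzZ, hz0, mk_eq_of_cross hx0 hz0 hall⟩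
      refine ⟨MvPolynomial.X i * C (z i') - MvPolynomial.X i' * C (z i), fun y hy => ?_, ?_⟩
      · rw [map_sub, map_mul, map_mul, eval_X, eval_X, eval_C, eval_C, sub_eq_zero]
        exact hZ j y hy z hzZ i i'
      · rw [map_sub, map_mul, map_mul, eval_X, eval_X, eval_C, eval_C]
        exact sub_ne_zero.2 hii
    · push Not at hz
      obtain ⟨i, hi⟩ : ∃ i, x i ≠ 0 := by
        by_contra hall
        push Not at hall
        exact hx0 (funext hall)
      refine ⟨MvPolynomial.X i, fun y hy => ?_, ?_⟩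
      · rw [eval_X, hz y hy]
        rfl
      · rw [eval_X]
        exact hi
  choose F hF1 hF2 using key
  have h1 := hS (∏ j, F j) (fun j y hy => by
    rw [map_prod]
    exact Finset.prod_eq_zero (Finset.mem_univ j) (hF1 j y hy)) x hx
  rw [map_prod] at h1
  exact Finset.prod_ne_zero_iff.2 (fun j _ => hF2 j) h1

/-- The context-free families of points of `X` are finite. -/
def GrammarsFinite (FF : Set (MvPolynomial (Fin (n + 1)) L)) : Prop :=
  ∀ (r : ℕ) (A : Type) [Finite A] (ρ : A → Matrix.GeneralLinearGroup (Fin r) L)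
    (M : Matrix (Fin (n + 1)) (Fin r) L) (v : Fin r → L) (g : ContextFreeGrammar A),
    (∀ x ∈ wordVecs M ρ v g.language, ∀ F ∈ FF, eval x F = 0) →
      (projPts (wordVecs M ρ v g.language)).Finite

theorem grammarsFinite_of_noRat [IsAlgClosed L] [CharZero L]
    (FF : Set (MvPolynomial (Fin (n + 1)) L)) (hhom : ∀ F ∈ FF, ∃ e, F.IsHomogeneous e)
    (h : NoRat FF) : GrammarsFinite FF := by
  intro r A _ ρ M v g hX
  obtain ⟨N, s, P, hP⟩ := (vectors_FU M ρ v g).list
  refine lines_finite (fun j => Set.range (tor (P j))) ?_ _ ?_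
  · rintro j _ ⟨t, rfl⟩ _ ⟨u, rfl⟩ i i'
    refine torus_line FF hhom h (P j) (fun t F hF => ?_) t u i i'
    exact (hP F).1 (fun x hx => hX x hx F hF) j t
  · intro F hF x hx
    exact (hP F).2 (fun j t => hF j _ ⟨t, rfl⟩) x hx

theorem orbitsFinite_of_grammarsFinite [CharZero L]
    (FF : Set (MvPolynomial (Fin (n + 1)) L)) (h : GrammarsFinite FF) : OrbitsFiniteK FF := by
  classical
  intro r H _ hH ρ M v hX
  obtain ⟨S, hS⟩ := (Group.fg_iff_monoid_fg.1 hH).fg_top
  have hA : Fintype S := inferInstance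
  have hword : ∀ l : List S, affVec M (fun a : S => ρ a.1) v l =
      orb M ρ v (l.map Subtype.val).prod := by
    intro l
    unfold affVec orb
    rw [map_list_prod, List.map_map]
    rfl
  have h1 := h r S (fun a => ρ a.1) M v (allWords S) (by
    rintro _ ⟨w, -, rfl⟩ F hF
    rw [hword]
    exact hX _ F hF)
  refine h1.subset ?_
  rintro _ ⟨x, hx, rfl⟩
  obtain ⟨l, hl, hlx⟩ := Submonoid.exists_list_of_mem_closure (s := (S : Set H)) (x := x)
    (by rw [hS]; trivial)
  have hlS : ∃ l' : List S, l'.map Subtype.val = l := by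
    refine ⟨l.attach.map fun y => ⟨y.1, hl y.1 y.2⟩, ?_⟩
    rw [List.map_map]
    have : (Subtype.val ∘ fun y : {y // y ∈ l} => (⟨y.1, hl y.1 y.2⟩ : S)) = Subtype.val := rfl
    rw [this, List.attach_map_subtype_val]
  obtain ⟨l', hl'⟩ := hlS
  have hv : orb M ρ v x = affVec M (fun a : S => ρ a.1) v l' := by
    rw [hword, hl', hlx]
  refine ⟨orb M ρ v x, ⟨l', mem_allWords S l', hv⟩, hx, rfl⟩

/-- **Varieties without rational curves and context-free families.** -/
theorem noRat_iff [IsAlgClosed L] [CharZero L] (FF : Set (MvPolynomial (Fin (n + 1)) L))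
    (hhom : ∀ F ∈ FF, ∃ e, F.IsHomogeneous e) : NoRat FF ↔ GrammarsFinite FF :=
  ⟨grammarsFinite_of_noRat FF hhom, fun h =>
    noRat_of_finite FF (orbitsFinite_of_grammarsFinite FF h)⟩

end Pool.Agent.TH138.CG
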