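import Pool.Agent.TH138.CG.C4

set_option autoImplicit false

/-!
# Context-free families on projective varieties
-/

namespace Pool.Agent.TH138.CG

open Pool.Agent.TH717.GO Pool.Agent.TH138.LG Pool.Agent.TH138.UD MvPolynomial
open scoped LinearAlgebra.Projectivization

variable {n : ℕ}

/-- the absence of rational curves persists in extensions -/
theorem noRat_ext {k E : Type} [Field k] [IsAlgClosed k] [Field E] [Algebra k E]
    (FF : Set (MvPolynomial (Fin (n + 1)) k)) (h : NoRat FF) :
    NoRat ((MvPolynomial.map (algebraMap k E)) '' FF) := by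
  classical
  intro q hq i j a b
  let sh : Polynomial E →ₐ[E] Polynomial E := Polynomial.aeval (Polynomial.X + Polynomial.C (b - 1))
  let p : Fin (n + 1) → Polynomial E := fun i => sh (q i)
  have hpe : ∀ i (t : E), (p i).eval t = (q i).eval (t + (b - 1)) := by
    intro i t
    show (Polynomial.aeval (Polynomial.X + Polynomial.C (b - 1)) (q i)).eval t = _
    rw [Polynomial.aeval_def, Polynomial.algebraMap_eq, ← Polynomial.comp, Polynomial.eval_comp,
      Polynomial.eval_add, Polynomial.eval_X, Polynomial.eval_C]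
  have hp : ∀ F ∈ FF, aeval p F = 0 := by
    intro F hF
    have h1 := congrArg sh (hq _ ⟨F, hF, rfl⟩)
    rw [map_zero, MvPolynomial.comp_aeval_apply, aeval_map_algebraMap] at h1
    exact h1
  let S : Finset ℕ := Finset.univ.biUnion fun i => (p i).support
  have h1 := noRat_cur FF h S.card E p S le_rfl
    (fun i => Finset.subset_biUnion_of_mem (fun i => (p i).support) (Finset.mem_univ i)) hp
    (by rw [map_one]; exact one_ne_zero) i j
  have h2 := congrArg (Polynomial.eval (a - (b - 1))) h1
  rw [Polynomial.eval_mul, Polynomial.eval_mul, Polynomial.eval_C, Polynomial.eval_C, hpe, hpe,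
    hpe, hpe] at h2
  simpa using h2

/-- The context-free families of points of `X` over the extension `E` of the ground field are
finite. -/
def FamiliesFinite {k : Type} [Field k] (FF : Set (MvPolynomial (Fin (n + 1)) k)) (E : Type)
    [Field E] [Algebra k E] : Prop :=
  ∀ (r : ℕ) (A : Type) [Finite A] (ρ : A → Matrix.GeneralLinearGroup (Fin r) E)
    (M : Matrix (Fin (n + 1)) (Fin r) E) (v : Fin r → E) (g : ContextFreeGrammar A),
    (∀ x ∈ wordVecs M ρ v g.language, ∀ F ∈ FF, aeval x F = 0) →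
      (projPts (wordVecs M ρ v g.language)).Finite

theorem affVec_map {E L A : Type} [Field E] [Field L] {r : ℕ} (φ : E →+* L)
    (M : Matrix (Fin (n + 1)) (Fin r) E) (ρ : A → Matrix.GeneralLinearGroup (Fin r) E)
    (v : Fin r → E) (w : List A) :
    affVec (M.map φ) (fun a => Matrix.GeneralLinearGroup.map φ (ρ a)) (fun i => φ (v i)) w =
      fun i => φ (affVec M ρ v w i) := by
  have h1 : ((w.map fun a => Matrix.GeneralLinearGroup.map φ (ρ a)).prod :
      Matrix.GeneralLinearGroup (Fin r) L) = Matrix.GeneralLinearGroup.map φ (w.map ρ).prod := by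
    rw [map_list_prod, List.map_map]
    rfl
  unfold affVec
  rw [h1]
  funext i
  have h2 : ((Matrix.GeneralLinearGroup.map φ (w.map ρ).prod : Matrix.GeneralLinearGroup (Fin r) L) :
      Matrix (Fin r) (Fin r) L) = ((w.map ρ).prod : Matrix (Fin r) (Fin r) E).map φ := rfl
  rw [h2]
  have h3 : (((w.map ρ).prod : Matrix (Fin r) (Fin r) E).map φ).mulVec (fun i => φ (v i)) =
      fun i => φ (((w.map ρ).prod : Matrix (Fin r) (Fin r) E).mulVec v i) := by
    funext j
    exact (RingHom.map_mulVec φ _ v j).symm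
  rw [h3]
  exact (RingHom.map_mulVec φ M _ i).symm

theorem familiesFinite_of_noRat {k : Type} [Field k] [IsAlgClosed k] [CharZero k]
    (FF : Set (MvPolynomial (Fin (n + 1)) k)) (hhom : ∀ F ∈ FF, ∃ e, F.IsHomogeneous e)
    (h : NoRat FF) (E : Type) [Field E] [Algebra k E] : FamiliesFinite FF E := by
  classical
  intro r A _ ρ M v g hX
  let L := AlgebraicClosure E
  have : CharZero E := charZero_of_injective_algebraMap (algebraMap k E).injective
  have : CharZero L := charZero_of_injective_algebraMap (algebraMap E L).injective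
  let φ : E →+* L := algebraMap E L
  have h1 := grammarsFinite_of_noRat ((MvPolynomial.map (algebraMap k L)) '' FF) (by
    rintro _ ⟨F, hF, rfl⟩
    obtain ⟨e, he⟩ := hhom F hF
    exact ⟨e, he.map _⟩) (noRat_ext FF h) r A
      (fun a => Matrix.GeneralLinearGroup.map φ (ρ a)) (M.map φ) (fun i => φ (v i)) g (by
      rintro _ ⟨w, hw, rfl⟩ _ ⟨F, hF, rfl⟩
      rw [affVec_map, eval_map]
      have h2 := hX _ ⟨w, hw, rfl⟩ F hF
      have h3 := congrArg (IsScalarTower.toAlgHom k E L) h2
      rw [map_zero, comp_aeval_apply, aeval_def] at h3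
      exact h3)
  -- back to `E`
  have hinj : Function.Injective φ := φ.injective
  have hmap : ∀ P ∈ projPts (wordVecs M ρ v g.language), ∃ Q ∈ projPts (wordVecs (M.map φ)
      (fun a => Matrix.GeneralLinearGroup.map φ (ρ a)) (fun i => φ (v i)) g.language),
      ∀ i j, φ (P.rep i) * Q.rep j = φ (P.rep j) * Q.rep i := by
    rintro _ ⟨_, ⟨w, hw, rfl⟩, hx, rfl⟩
    have hx' : affVec (M.map φ) (fun a => Matrix.GeneralLinearGroup.map φ (ρ a))
        (fun i => φ (v i)) w ≠ 0 := by
      rw [affVec_map]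
      intro h0
      apply hx
      funext i
      exact hinj ((congrFun h0 i).trans (map_zero φ).symm)
    refine ⟨_, ⟨_, ⟨w, hw, rfl⟩, hx', rfl⟩, fun i j => ?_⟩
    obtain ⟨a, ha⟩ := Projectivization.exists_smul_eq_mk_rep E _ hx
    obtain ⟨b, hb⟩ := Projectivization.exists_smul_eq_mk_rep L _ hx'
    rw [← ha, ← hb, affVec_map]
    simp only [Pi.smul_apply, Units.smul_def, smul_eq_mul, map_mul]
    ring
  choose! Q hQ hQc using hmap
  refine Set.Finite.of_finite_image (f := Q) (h1.subset ?_) ?_
  · rintro _ ⟨P, hP, rfl⟩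
    exact hQ P hP
  · intro P hP P' hP' hPP
    have h2 := hQc P hP
    have h3 := hQc P' hP'
    rw [← hPP] at h3
    obtain ⟨j0, hj0⟩ : ∃ j, (Q P).rep j ≠ 0 := by
      by_contra hcon
      push Not at hcon
      exact (Q P).rep_nonzero (funext hcon)
    have h4 : ∀ i j, P.rep i * P'.rep j = P.rep j * P'.rep i := by
      intro i j
      apply hinj
      rw [map_mul, map_mul]
      have e1 := h2 i j0
      have e2 := h3 j j0
      have e3 := h2 j j0
      have e4 := h3 i j0
      refine mul_right_cancel₀ (mul_ne_zero hj0 hj0) ?_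
      calc φ (P.rep i) * φ (P'.rep j) * ((Q P).rep j0 * (Q P).rep j0)
          = (φ (P.rep i) * (Q P).rep j0) * (φ (P'.rep j) * (Q P).rep j0) := by ring
        _ = (φ (P.rep j0) * (Q P).rep i) * (φ (P'.rep j0) * (Q P).rep j) := by rw [e1, e2]
        _ = (φ (P.rep j0) * (Q P).rep j) * (φ (P'.rep j0) * (Q P).rep i) := by ring
        _ = (φ (P.rep j) * (Q P).rep j0) * (φ (P'.rep i) * (Q P).rep j0) := by rw [e3, e4]
        _ = φ (P.rep j) * φ (P'.rep i) * ((Q P).rep j0 * (Q P).rep j0) := by ring
    rw [← P.mk_rep, ← P'.mk_rep]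
    exact mk_eq_of_cross P.rep_nonzero P'.rep_nonzero h4

/-- `P` parametrises a subvariety of positive dimension of `X` -/
def Param {L : Type} [Field L] (FF : Set (MvPolynomial (Fin (n + 1)) L)) {s : ℕ}
    (P : Fin (n + 1) → MvPolynomial (Fin s) L) : Prop :=
  (∀ F ∈ FF, aeval P F = 0) ∧ ∃ (i j : Fin (n + 1)) (t u : Fin s → L),
    eval t (P i) * eval u (P j) ≠ eval t (P j) * eval u (P i)

/-- `x` lies on the closure of the image of `P` in projective space -/
def OnImage {L : Type} [Field L] {s : ℕ} (P : Fin (n + 1) → MvPolynomial (Fin s) L)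
    (x : Fin (n + 1) → L) : Prop :=
  ∀ (d : ℕ) (G : MvPolynomial (Fin (n + 1)) L), G.IsHomogeneous d → aeval P G = 0 → eval x G = 0

/-- **Almost all points of a context-free family lie on unirational subvarieties of positive
dimension.** -/
theorem special {L : Type} [Field L] [IsAlgClosed L] [CharZero L]
    (FF : Set (MvPolynomial (Fin (n + 1)) L)) (hhom : ∀ F ∈ FF, ∃ e, F.IsHomogeneous e)
    {r : ℕ} {A : Type} [Finite A] (ρ : A → Matrix.GeneralLinearGroup (Fin r) L)
    (M : Matrix (Fin (n + 1)) (Fin r) L) (v : Fin r → L) (g : ContextFreeGrammar A)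
    (hX : ∀ x ∈ wordVecs M ρ v g.language, ∀ F ∈ FF, eval x F = 0) :
    ∃ (N : ℕ) (s : Fin N → ℕ) (P : (j : Fin N) → Fin (n + 1) → MvPolynomial (Fin (s j)) L),
      (∀ j, Param FF (P j)) ∧
        (projPts {x ∈ wordVecs M ρ v g.language | ∀ j, ¬ OnImage (P j) x}).Finite := by
  classical
  obtain ⟨N, s, P, hP⟩ := (vectors_FU M ρ v g).list
  have hinf : Infinite L := inferInstance
  choose E G hG using fun j => clear_all (P j)
  have hPF : ∀ (j : Fin N) (t : Fin (s j) → Lˣ), ∀ F ∈ FF, eval (tor (P j) t) F = 0 :=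
    fun j t F hF => (hP F).1 (fun x hx => hX x hx F hF) j t
  have hev : ∀ (j : Fin N) (d : ℕ) (F : MvPolynomial (Fin (n + 1)) L), F.IsHomogeneous d →
      ∀ t : Fin (s j) → Lˣ, eval (fun a => ((t a : Lˣ) : L)) (aeval (G j) F) =
        ((∏ a, ((t a : Lˣ) : L)) ^ (E j)) ^ d * eval (tor (P j) t) F := by
    intro j d F hF t
    have h1 : aeval (G j) F = bind₁ (G j) F := rfl
    rw [h1, eval_bind]
    have h2 : (fun i => eval (fun a => ((t a : Lˣ) : L)) (G j i)) =
        fun i => (∏ a, ((t a : Lˣ) : L)) ^ (E j) * tor (P j) t i := funext (hG j t)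
    rw [h2]
    exact aeval_mul_hom (L := L) F d hF ((∏ a, ((t a : Lˣ) : L)) ^ (E j)) (tor (P j) t)
  have hne : ∀ (j : Fin N) (t : Fin (s j) → Lˣ) (e : ℕ), (∏ a, ((t a : Lˣ) : L)) ^ e ≠ 0 :=
    fun j t e => pow_ne_zero _ (Finset.prod_ne_zero_iff.2 fun a _ => (t a).ne_zero)
  have hGF : ∀ (j : Fin N), ∀ F ∈ FF, aeval (G j) F = 0 := by
    intro j F hF
    obtain ⟨d, hd⟩ := hhom F hF
    refine zero_of_units _ fun t => ?_
    rw [hev j d F hd t, hPF j t F hF, mul_zero]
  let J : Type := {j : Fin N // ∃ (i i' : Fin (n + 1)) (t u : Fin (s j) → Lˣ),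
    tor (P j) t i * tor (P j) u i' ≠ tor (P j) t i' * tor (P j) u i}
  have hJfin : Finite J := Subtype.finite
  let e := Finite.equivFin J
  refine ⟨Nat.card J, fun j => s (e.symm j).1, fun j => G (e.symm j).1, fun j => ⟨hGF _, ?_⟩, ?_⟩
  · obtain ⟨i, i', t, u, hne'⟩ := (e.symm j).2
    refine ⟨i, i', fun a => ((t a : Lˣ) : L), fun a => ((u a : Lˣ) : L), ?_⟩
    rw [hG, hG, hG, hG]
    intro h0
    apply hne'
    refine mul_left_cancel₀ (mul_ne_zero (hne _ t (E (e.symm j).1)) (hne _ u (E (e.symm j).1))) ?_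
    linear_combination h0
  · let Z : Fin N → Set (Fin (n + 1) → L) := fun j =>
      if h : ∃ (i i' : Fin (n + 1)) (t u : Fin (s j) → Lˣ),
        tor (P j) t i * tor (P j) u i' ≠ tor (P j) t i' * tor (P j) u i then ∅
      else Set.range (tor (P j))
    refine lines_finite Z ?_ _ ?_
    · intro j x hx y hy i i'
      by_cases h : ∃ (i i' : Fin (n + 1)) (t u : Fin (s j) → Lˣ),
          tor (P j) t i * tor (P j) u i' ≠ tor (P j) t i' * tor (P j) u i
      · simp only [Z, dif_pos h] at hx
        exact absurd hx (Set.notMem_empty x)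
      · simp only [Z, dif_neg h] at hx hy
        push Not at h
        obtain ⟨t, rfl⟩ := hx
        obtain ⟨u, rfl⟩ := hy
        exact h i i' t u
    · rintro F hF x ⟨hxS, hx⟩
      -- forms that vanish on the other images and not at `x`
      have hK : ∀ j : J, ∃ (d : ℕ) (H : MvPolynomial (Fin (n + 1)) L), H.IsHomogeneous d ∧
          aeval (G j.1) H = 0 ∧ eval x H ≠ 0 := by
        intro j
        have h1 := hx (e j)
        unfold OnImage at h1
        push Not at h1
        obtain ⟨d, H, hH, hH0, hHx⟩ := h1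
        refine ⟨d, H, hH, ?_, hHx⟩
        have h2 : ∀ j' : J, j' = j → aeval (G j'.1) H = 0 → aeval (G j.1) H = 0 := by
          rintro _ rfl h
          exact h
        exact h2 _ (e.symm_apply_apply j) hH0
      choose d H hHd hH0 hHx using hK
      have : Fintype J := Fintype.ofFinite J
      have h3 := (hP (F * ∏ j, H j)).2 (by
        intro j t
        rw [map_mul, map_prod]
        by_cases h : ∃ (i i' : Fin (n + 1)) (t u : Fin (s j) → Lˣ),
            tor (P j) t i * tor (P j) u i' ≠ tor (P j) t i' * tor (P j) u i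
        · have h4 : eval (tor (P j) t) (H ⟨j, h⟩) = 0 := by
            have h5 := hev j (d ⟨j, h⟩) (H ⟨j, h⟩) (hHd _) t
            rw [hH0 ⟨j, h⟩, map_zero] at h5
            exact (mul_eq_zero.1 h5.symm).resolve_left (pow_ne_zero _ (hne j t _))
          rw [Finset.prod_eq_zero (Finset.mem_univ (⟨j, h⟩ : J)) h4, mul_zero]
        · rw [hF j (tor (P j) t) (by simp only [Z, dif_neg h]; exact ⟨t, rfl⟩), zero_mul]) x hxS
      rw [map_mul, map_prod] at h3
      exact (mul_eq_zero.1 h3).resolve_right (Finset.prod_ne_zero_iff.2 fun j _ => hHx j)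

end Pool.Agent.TH138.CG
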